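import Pool.Agent.Lib.MP_edb142_al.H.Main

open CategoryTheory MonoidalCategory Limits
open Pool.Agent.Lib.MP_edb142_al

namespace Pool.Agent.Results.MP_edb142_al.Haagerup

universe v u

theorem result
    {D : Type u} [Category.{v} D] [Preadditive D] [Linear ℂ D] [MonoidalCategory D]
    [MonoidalPreadditive D] [MonoidalLinear ℂ D] [HasFiniteBiproducts D] [BraidedCategory D]
    [RigidCategory D] {I : Type} [Fintype I] [DecidableEq I] (M : Modular D I)
    (ζ ω : ℂ) (hζ : IsPrimitiveRoot ζ 13) (hω : IsPrimitiveRoot ω 3) (e : I ≃ Lab)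
    (h₁ : ∀ i j, M.S i j = hS ζ (e i) (e j)) (h₂ : ∀ i, M.T i = hT ζ ω (e i)) :
    IsCentre D := by
  obtain ⟨M', H⟩ := haag_reindex M e hζ hω h₁ h₂
  exact H.centre

end Pool.Agent.Results.MP_edb142_al.Haagerup
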