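import Pool.Agent.Lib.MP_edb142_al.H.G7
import Pool.Agent.Lib.MP_edb142_al.Fin

open CategoryTheory MonoidalCategory Limits
open Pool.Agent.Lib.MP_edb142_al

namespace Pool.Agent.Results.MP_edb142_al.QuadraticFree

universe v u

theorem result
    {D : Type u} [Category.{v} D] [Preadditive D] [Linear ℂ D] [MonoidalCategory D]
    [MonoidalPreadditive D] [MonoidalLinear ℂ D] [HasFiniteBiproducts D] [BraidedCategory D]
    [RigidCategory D] {J : Type} [Fintype J] [DecidableEq J] (N : Modular D J) (Dg : Dagger D)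
    (x : J) (δ : ℂ) (hx : x ≠ N.o) (hT : N.T x = 1) (hd : N.S x N.o = δ + 1)
    (h : ∀ c, (N.S c N.o = 1 ∧ N.S c x = δ + 1) ∨ (N.S c N.o = δ + 1 ∧ N.S c x = 1) ∨
      (N.S c N.o = δ + 2 ∧ N.S c x = δ + 2) ∨
      (N.S c N.o = δ ∧ N.S c x = -δ ∧ ∀ f : N.X c ⟶ N.X x ⊗ N.X c, f = 0)) :
    List.TFAE
      [IsCentre D,
       ∃ w, LagVec N.S N.T N.o w,
       ∃ (C : Type u) (_ : Category.{v} C) (_ : Preadditive C) (_ : Linear ℂ C)
         (_ : MonoidalCategory C) (_ : MonoidalPreadditive C) (_ : MonoidalLinear ℂ C)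
         (_ : HasFiniteBiproducts C) (_ : BraidedCategory C) (_ : RigidCategory C) (I : Type)
         (_ : Fintype I) (_ : DecidableEq I) (M : Modular C I) (f : I ≃ J),
         (∀ i j, M.S i j = N.S (f i) (f j)) ∧ (∀ i, M.T i = N.T (f i)) ∧ IsCentre C] := by
  tfae_have 1 → 3 := fun h => ⟨D, _, _, _, _, inferInstance, inferInstance, _, _, _, J, _, _, N,
    Equiv.refl J, fun _ _ => rfl, fun _ => rfl, h⟩
  tfae_have 3 → 2 := by
    rintro ⟨C, _, _, _, _, _, _, _, _, _, I, _, _, M, f, a1, a2,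
      E, _, _, _, _, _, _, _, _, J', _, ⟨Φ⟩, ⟨K⟩⟩
    obtain ⟨w, c, h1, h2, h3, h4⟩ := K.cf.lagr M Φ
    exact lagVec_same M N f (fun i j => (a1 i j).symm) (fun i => (a2 i).symm)
      (w := w) ⟨by rw [h1]; exact one_ne_zero, h3, c, h2, h4⟩
  tfae_have 2 → 1 := by
    rintro ⟨w, hw⟩
    have := N.ss.finite
    have ex : ∀ c, ∃ t n : ℕ, ((t = 1 ∧ n = 0) ∨ (t = 1 ∧ n = 1) ∨ (t = 2 ∧ n = 1) ∨
        (t = 0 ∧ n = 1)) ∧ N.dim c = t + n * δ ∧ N.S x c = t * (δ + 1) - n * δ ∧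
        (t = 0 → N.N x c c = 0) := fun c => by
      rw [← N.S_o', N.S_symm x]
      rcases h c with ⟨a, b⟩ | ⟨a, b⟩ | ⟨a, b⟩ | ⟨a, b, e⟩
      · exact ⟨1, 0, by simp, by simp [a], by simp [b], by simp⟩
      · exact ⟨1, 1, by simp, by simp [a, add_comm], by simp [b], by simp⟩
      · exact ⟨2, 1, by simp, by simp [a, add_comm], by rw [b]; push_cast; ring, by simp⟩
      · exact ⟨0, 1, by simp, by simp [a], by simp [b],
          fun _ => finrank_zero_iff_forall_zero.2 e⟩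
    choose τ ν a1 a2 a3 a4 using ex
    exact GF.centre ⟨hx, hT, N.S_o' x ▸ hd, a1, a2, a3, a4⟩ Dg hw
  tfae_finish

end Pool.Agent.Results.MP_edb142_al.QuadraticFree
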