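import Pool.Agent.Lib.MP_edb142_al.W10

open CategoryTheory MonoidalCategory Limits
open scoped ComplexOrder
open Pool.Agent.Lib.MP_edb142_al

namespace Pool.Agent.Results.MP_edb142_al.WittGen

universe v u

theorem result
    {C : Type u} [Category.{v} C] [Preadditive C] [Linear ℂ C] [MonoidalCategory C]
    [MonoidalPreadditive C] [MonoidalLinear ℂ C] [HasFiniteBiproducts C] [BraidedCategory C]
    [RigidCategory C]
    {D : Type u} [Category.{v} D] [Preadditive D] [Linear ℂ D] [MonoidalCategory D]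
    [MonoidalPreadditive D] [MonoidalLinear ℂ D] [HasFiniteBiproducts D] [BraidedCategory D]
    [RigidCategory D]
    {E : Type u} [Category.{v} E] [Preadditive E] [Linear ℂ E] [MonoidalCategory E]
    [MonoidalPreadditive E] [MonoidalLinear ℂ E] [HasFiniteBiproducts E] [BraidedCategory E]
    [RigidCategory E]
    {A : Type u} [Category.{v} A] [Preadditive A] [Linear ℂ A] [MonoidalCategory A]
    [MonoidalPreadditive A] [MonoidalLinear ℂ A] [HasFiniteBiproducts A] [RigidCategory A]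
    {A' : Type u} [Category.{v} A'] [Preadditive A'] [Linear ℂ A'] [MonoidalCategory A']
    [MonoidalPreadditive A'] [MonoidalLinear ℂ A'] [HasFiniteBiproducts A'] [RigidCategory A']
    {IC ID IE J J' : Type} [Fintype IC] [DecidableEq IC] [Fintype ID] [DecidableEq ID]
    [Fintype IE] [DecidableEq IE] [Fintype J] [Fintype J']
    (MC : Modular C IC) (MD : Modular D ID) (ME : Modular E IE)
    (ΦA : Fusion A J) (ΦA' : Fusion A' J')
    (e : IC ≃ ID) (hS : ∀ i j, MD.S (e i) (e j) = MC.S i j) (hT : ∀ i, MD.T (e i) = MC.T i)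
    (KC : CentreEquiv C A) (KE : CentreEquiv E A')
    {ι : Type} [Fintype ι] [DecidableEq ι] {I : ι → Type} [∀ i, Fintype (I i)]
    (S : ∀ i, I i → I i → ℂ) (T : ∀ i, I i → ℂ) (o : ∀ i, I i)
    (hSo : ∀ i, S i (o i) (o i) = 1) (hTo : ∀ i, T i (o i) = 1)
    (lab : ID × (∀ i, I i) ≃ IE)
    (hSE : ∀ a b, ME.S (lab a) (lab b) = MD.S a.1 b.1 * ∏ i, S i (a.2 i) (b.2 i))
    (hTE : ∀ a, ME.T (lab a) = MD.T a.1 * ∏ i, T i (a.2 i))
    (G : D ⥤ E) [G.Braided] [G.Additive] [G.Linear ℂ] [G.Full] [G.Faithful]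
    (hG : ∀ k, Nonempty (G.obj (MD.X k) ≅ ME.X (lab (k, o))))
    (hB : (∀ w : (∀ i, I i) → ℕ, LagVec (fun a b => ∏ i, S i (a i) (b i)) (fun a => ∏ i, T i (a i)) o w →
        ∀ a, w a ≠ 0 → a = o) ∨
      ∃ (j : ι) (k N : ℕ), 0 < k ∧ (∀ x, T j x ^ k = 1) ∧
        (∀ x, TotPos (S j x (o j)) ∨ TotPos (-S j x (o j)) → T j x ^ N = 1) ∧
        (∀ l : ℕ, ¬IsIntegral ℤ (4 ^ l * (N : ℂ) ^ 2 / ∑ x, S j x (o j) ^ 2)) ∧
        (∀ x, x ≠ o j → ¬GoodNum (T j x) (S j x (o j))) ∧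
        ∀ i, i ≠ j → ∀ x, x ≠ o j → ∀ y, y ≠ o i →
          ¬GoodNum (T j x * T i y) (S j x (o j) * S i y (o i))) :
    Nonempty (CentreEquiv D A') := by
  classical
  refine core MC MD ME ΦA ΦA' e hS hT KC KE S T o hSo hTo lab hSE hTE G hG fun w h => ?_
  rcases hB with hB | ⟨j, k, N, hk, h1, h2, h3, h4, h5⟩
  · exact hB w h.hw
  · exact (h.no_G j h4 hk h1 h2 h3 h5).elim

end Pool.Agent.Results.MP_edb142_al.WittGen
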