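import Pool.Agent.Lib.MP_edb142_al.W10

open CategoryTheory MonoidalCategory Limits
open scoped ComplexOrder
open Pool.Agent.Lib.MP_edb142_al

namespace Pool.Agent.Results.MP_edb142_al.WittOdd

universe v u

theorem result
    {C : Type u} [Category.{v} C] [Preadditive C] [Linear ℂ C] [MonoidalCategory C]
    [MonoidalPreadditive C] [MonoidalLinear ℂ C] [HasFiniteBiproducts C] [BraidedCategory C]
    [RigidCategory C]
    {D : Type u} [Category.{v} D] [Preadditive D] [Linear ℂ D] [MonoidalCategory D]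
    [MonoidalPreadditive D] [MonoidalLinear ℂ D] [HasFiniteBiproducts D] [BraidedCategory D]
    [RigidCategory D]
    {E : Type u} [Category.{v} E] [Preadditive E] [Linear ℂ E] [MonoidalCategory E]
    [MonoidalPreadditive E] [MonoidalLinear ℂ E] [HasFiniteBiproducts E] [BraidedCategory E]
    [RigidCategory E]
    {A : Type u} [Category.{v} A] [Preadditive A] [Linear ℂ A] [MonoidalCategory A]
    [MonoidalPreadditive A] [MonoidalLinear ℂ A] [HasFiniteBiproducts A] [RigidCategory A]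
    {A' : Type u} [Category.{v} A'] [Preadditive A'] [Linear ℂ A'] [MonoidalCategory A']
    [MonoidalPreadditive A'] [MonoidalLinear ℂ A'] [HasFiniteBiproducts A'] [RigidCategory A']
    {IC ID IE J J' : Type} [Fintype IC] [DecidableEq IC] [Fintype ID] [DecidableEq ID]
    [Fintype IE] [DecidableEq IE] [Fintype J] [Fintype J']
    (MC : Modular C IC) (MD : Modular D ID) (ME : Modular E IE)
    (ΦA : Fusion A J) (ΦA' : Fusion A' J')
    (e : IC ≃ ID) (hS : ∀ i j, MD.S (e i) (e j) = MC.S i j) (hT : ∀ i, MD.T (e i) = MC.T i)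
    (KC : CentreEquiv C A) (KE : CentreEquiv E A')
    {ι : Type} [Fintype ι] [DecidableEq ι] {I : ι → Type} [∀ i, Fintype (I i)]
    (S : ∀ i, I i → I i → ℂ) (T : ∀ i, I i → ℂ) (o : ∀ i, I i)
    (hSo : ∀ i, S i (o i) (o i) = 1) (hTo : ∀ i, T i (o i) = 1)
    (lab : ID × (∀ i, I i) ≃ IE)
    (hSE : ∀ a b, ME.S (lab a) (lab b) = MD.S a.1 b.1 * ∏ i, S i (a.2 i) (b.2 i))
    (hTE : ∀ a, ME.T (lab a) = MD.T a.1 * ∏ i, T i (a.2 i))
    (G : D ⥤ E) [G.Braided] [G.Additive] [G.Linear ℂ] [G.Full] [G.Faithful]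
    (hG : ∀ k, Nonempty (G.obj (MD.X k) ≅ ME.X (lab (k, o))))
    (hB : (∀ w : (∀ i, I i) → ℕ, LagVec (fun a b => ∏ i, S i (a i) (b i)) (fun a => ∏ i, T i (a i)) o w →
        ∀ a, w a ≠ 0 → a = o) ∨
      ∃ (j : ι) (n : ℕ) (q : ℂ), Odd n ∧ 5 ≤ n ∧ IsPrimitiveRoot q n ∧ IsSl (S j) (T j) (o j) n q ∧
        ∀ i, i ≠ j → (∀ y, y ≠ o i → ¬GoodNum (slT q 1 * T i y) (slS q 1 0 * S i y (o i))) ∨
          (∃ N, ¬n ∣ N ∧ ∀ y, T i y ^ N = 1) ∨
          (∃ q', IsPrimitiveRoot q' n ∧ q * q' ≠ 1 ∧ IsSl (S i) (T i) (o i) n q') ∨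
          (7 ≤ n ∧ ∀ y, ∃ r : ℚ, S i y (o i) ^ 2 = r)) :
    Nonempty (CentreEquiv D A') := by
  classical
  refine core MC MD ME ΦA ΦA' e hS hT KC KE S T o hSo hTo lab hSE hTE G hG fun w h => ?_
  rcases hB with hB | ⟨j, n, q, h1, h5, hq, hj, h2⟩
  · exact hB w h.hw
  · have : NeZero n := ⟨by omega⟩
    exact (h.no_P (Nat.odd_iff.1 h1) h5 hq hj h2).elim

end Pool.Agent.Results.MP_edb142_al.WittOdd
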